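import Mathlib

/-!
# Combinatorially regular tilings of `E^3` and `E^4` of hyperbolic type (MP_389659_co)

Project HT (helper157).  We construct a locally finite face-to-face tiling of `E^n`, `n = 3, 4`, by
combinatorial cubes with five tiles around each face of codimension 2 (type `{4,3,5}`, `{4,3,3,5}`):
take the regular tessellation of hyperbolic space by cubes, in the hyperboloid model, given by an
explicit arithmetic reflection group over `Z[phi]`; the vertices lie on a hyperboloid; the lower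
convex hull of the vertices projects vertically onto a tiling of `E^n`.  All the discreteness and
convexity statements follow from arithmetic (`S_A`, `S_Zfin`).
-/

set_option autoImplicit false

open Set

namespace Pool.Agent.Q157.HT

noncomputable section

/-! ## General definitions -/

/-- Euclidean space `E^n` -/
abbrev E (n : ℕ) := EuclideanSpace ℝ (Fin n)

/-- `F` is a face of the convex set `P`: a convex extreme subset of `P` (for a polytope `P` these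
are the usual faces, including the empty face and `P` itself). -/
def IsFace {n : ℕ} (F P : Set (E n)) : Prop := Convex ℝ F ∧ IsExtreme ℝ P F

/-- convex polytopes of full dimension in `E^n` -/
def IsPoly {n : ℕ} (P : Set (E n)) : Prop :=
  (∃ S : Set (E n), S.Finite ∧ P = convexHull ℝ S) ∧ (interior P).Nonempty

/-- locally finite, face-to-face tilings by convex polytopes (LFC tilings) -/
structure IsLFC {n : ℕ} (T : Set (Set (E n))) : Prop where
  poly : ∀ P ∈ T, IsPoly P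
  cover : ⋃₀ T = univ
  disj : ∀ P ∈ T, ∀ Q ∈ T, P ≠ Q → Disjoint (interior P) (interior Q)
  ftf : ∀ P ∈ T, ∀ Q ∈ T, IsFace (P ∩ Q) P
  lf : ∀ S : Set (E n), Bornology.IsBounded S → {P ∈ T | (P ∩ S).Nonempty}.Finite

/-- the face lattice: the faces of the tiles together with the empty face and `E^n`, ordered by
inclusion -/
def FaceLat {n : ℕ} (T : Set (Set (E n))) : Type :=
  {F : Set (E n) // F = ∅ ∨ F = univ ∨ ∃ P ∈ T, IsFace F P}

instance {n : ℕ} (T : Set (Set (E n))) : PartialOrder (FaceLat T) :=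
  inferInstanceAs (PartialOrder {F : Set (E n) // F = ∅ ∨ F = univ ∨ ∃ P ∈ T, IsFace F P})

instance {n : ℕ} (T : Set (Set (E n))) : OrderBot (FaceLat T) where
  bot := ⟨∅, Or.inl rfl⟩
  bot_le _ := Set.empty_subset _

/-- combinatorially regular: the automorphisms of the face lattice are transitive on flags -/
def CombRegular {n : ℕ} (T : Set (Set (E n))) : Prop :=
  ∀ Φ Ψ : Flag (FaceLat T), ∃ f : FaceLat T ≃o FaceLat T, f '' (Φ : Set (FaceLat T)) = Ψ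

/-- regular: the isometries which map the tiling onto itself are transitive on flags -/
def Regular {n : ℕ} (T : Set (Set (E n))) : Prop :=
  ∀ Φ Ψ : Flag (FaceLat T), ∃ g : E n ≃ᵢ E n, (fun P => g '' P) '' T = T ∧
    (fun P => g '' P) '' (Subtype.val '' (Φ : Set (FaceLat T))) =
      Subtype.val '' (Ψ : Set (FaceLat T))

/-! ## The arithmetic objects -/

/-- golden ratio -/
def ph : ℝ := (1 + √5) / 2

/-- its conjugate -/
def ps : ℝ := (1 - √5) / 2

/-- `ℝ × E^n` -/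
abbrev V (n : ℕ) := ℝ × E n

/-- the quadratic form `- f x₀ y₀ + ∑ x_i y_i` (`f = ph` Lorentzian, `f = ps` positive definite) -/
def B {n : ℕ} (f : ℝ) (x y : V n) : ℝ := -(f * x.1 * y.1) + ∑ i, x.2 i * y.2 i

/-- normal vector of the facet `x_i = 1` of the central cube (`f⁻² = 2 - f`) -/
def nv {n : ℕ} (f : ℝ) (i : Fin n) : V n := (2 - f, EuclideanSpace.single i 1)

/-- the reflection in the facet `i` -/
def rf {n : ℕ} (f : ℝ) (i : Fin n) (x : V n) : V n := x - (f ^ 2 * B f x (nv f i)) • nv f i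

/-- change of sign of the coordinate `i` -/
def ng {n : ℕ} (i : Fin n) (x : V n) : V n :=
  (x.1, WithLp.toLp 2 (fun j => if j = i then - x.2 j else x.2 j))

/-- permutation of the coordinates -/
def pm {n : ℕ} (σ : Equiv.Perm (Fin n)) (x : V n) : V n :=
  (x.1, WithLp.toLp 2 (fun j => x.2 (σ j)))

/-- the generators -/
def gens (n : ℕ) : Set (V n ≃ₗ[ℝ] V n) :=
  {g | (∃ i, ∀ x, g x = rf ph i x) ∨ (∃ i, ∀ x, g x = ng i x) ∨ (∃ σ, ∀ x, g x = pm σ x)}

/-- the group -/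
def G (n : ℕ) : Subgroup (V n ≃ₗ[ℝ] V n) := Subgroup.closure (gens n)

/-- the centre of the central cube -/
def cc (n : ℕ) : V n := (1, 0)

/-- the point of `E^n` with all coordinates 1 -/
def one (n : ℕ) : E n := WithLp.toLp 2 (fun _ => 1)

/-- the vertex `(f; 1, …, 1)` -/
def v0 (n : ℕ) (f : ℝ) : V n := (f, one n)

/-- `a = m + k φ` and `b = m + k ψ` for integers `m, k` -/
def IsI (a b : ℝ) : Prop := ∃ m k : ℤ, a = m + k * ph ∧ b = m + k * ps

/-- `x` is a lattice point (over `Z[φ]`) and `x'` its conjugate -/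
def Lat {n : ℕ} (x x' : V n) : Prop := IsI x.1 x'.1 ∧ ∀ i, IsI (x.2 i) (x'.2 i)

/-- future time-like vectors -/
def Fut {n : ℕ} (x : V n) : Prop := 0 < x.1 ∧ B ph x x < 0

/-- the set containing all the vertices (given by arithmetic conditions) -/
def X (n : ℕ) : Set (V n) :=
  {x | 0 < x.1 ∧ ∃ x' : V n, Lat x x' ∧ B ph x x = n - ph ^ 3 ∧ B ps x' x' = n - ps ^ 3 ∧
    ∃ p p' : V n, Lat p p' ∧ x = v0 n ph + (2 : ℝ) • p ∧ x' = v0 n ps + (2 : ℝ) • p'}

/-- the centres of the tiles -/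
def Z (n : ℕ) : Set (V n) := {z | ∃ g ∈ G n, z = g (cc n)}

/-- the convex set whose boundary carries the tiling -/
def K (n : ℕ) : Set (V n) := {p | ∀ z ∈ Z n, B ph p z ≤ -ph ^ 2}

/-- the lifted tile -/
def Cell {n : ℕ} (z : V n) : Set (V n) := {p | p ∈ K n ∧ B ph p z = -ph ^ 2}

/-- the tile: the vertical projection of the lifted tile -/
def tile {n : ℕ} (z : V n) : Set (E n) := Prod.snd '' Cell z

/-- the tiling -/
def T (n : ℕ) : Set (Set (E n)) := {P | ∃ z ∈ Z n, P = tile z}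

/-- the standard cube -/
def cube (n : ℕ) : Set (E n) := {y | ∀ i, |y i| ≤ 1}

/-- the lifted standard cube -/
def cubeV (n : ℕ) : Set (V n) := {p | p.1 = ph ∧ ∀ i, |p.2 i| ≤ 1}

/-! ## Part I: algebra and arithmetic -/

/-- Numbers. Elementary. -/
def S_num : Prop :=
  ph ^ 2 = ph + 1 ∧ ps ^ 2 = ps + 1 ∧ ph + ps = 1 ∧ ph * ps = -1 ∧ ph - ps = √5 ∧
    1.618 < ph ∧ ph < 1.6181 ∧ -0.6181 < ps ∧ ps < -0.618 ∧ ph ^ 3 = 2 * ph + 1 ∧
    ps ^ 3 = 2 * ps + 1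

/-- `IsI` is a ring relation: closed under sums, differences, products, contains the integers and
`(φ, ψ)`; `IsI a b` with `a ≠ 0 ∨ b ≠ 0` implies `1 ≤ |a b|` (the norm is a non-zero integer);
only finitely many `a` have `|a| ≤ M`, `|b| ≤ M`. -/
def S_IsI : Prop :=
  (∀ a b c d, IsI a b → IsI c d → IsI (a + c) (b + d) ∧ IsI (a - c) (b - d) ∧ IsI (a * c) (b * d)) ∧
  (∀ m : ℤ, IsI m m) ∧ IsI ph ps ∧
  (∀ a b, IsI a b → (a ≠ 0 ∨ b ≠ 0) → 1 ≤ |a * b|) ∧
  (∀ a b, IsI a b → ∃ k : ℤ, a - b = k * √5) ∧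
  (∀ M : ℝ, {a : ℝ | ∃ b, IsI a b ∧ |a| ≤ M ∧ |b| ≤ M}.Finite)

/-- `B f` is symmetric and bilinear (as functions). -/
def S_bil : Prop := ∀ (n : ℕ) (f : ℝ) (x y z : V n) (r : ℝ),
  B f x y = B f y x ∧ B f (x + y) z = B f x z + B f y z ∧ B f (x - y) z = B f x z - B f y z ∧
  B f (r • x) z = r * B f x z ∧ B f z (x + y) = B f z x + B f z y ∧
  B f z (x - y) = B f z x - B f z y ∧ B f z (r • x) = r * B f z x ∧
  B f x (cc n) = -(f * x.1)

/-- The generators as linear equivalences, for `f = ph` and `f = ps`: they exist, preserve `B f`,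
and `rf`, `ng` are involutions. `B f (nv f i) (nv f i) = 2 f⁻² = 2 (2 - f)`,
`f ^ 2 * (2 - f) = 1`. -/
def S_gen : Prop := ∀ (n : ℕ) (f : ℝ), f ^ 2 = f + 1 →
  (∀ i : Fin n, ∃ g : V n ≃ₗ[ℝ] V n, (∀ x, g x = rf f i x) ∧ (∀ x, g (g x) = x) ∧
    ∀ x y, B f (g x) (g y) = B f x y) ∧
  (∀ i : Fin n, ∃ g : V n ≃ₗ[ℝ] V n, (∀ x, g x = ng i x) ∧ (∀ x, g (g x) = x) ∧
    ∀ x y, B f (g x) (g y) = B f x y) ∧
  (∀ σ : Equiv.Perm (Fin n), ∃ g : V n ≃ₗ[ℝ] V n, (∀ x, g x = pm σ x) ∧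
    ∀ x y, B f (g x) (g y) = B f x y)

/-- Hence the generators are in `G`. -/
def S_ex : Prop := ∀ n : ℕ, (∀ i : Fin n, ∃ g ∈ G n, ∀ x, g x = rf ph i x) ∧
  (∀ i : Fin n, ∃ g ∈ G n, ∀ x, g x = ng i x) ∧
  (∀ σ : Equiv.Perm (Fin n), ∃ g ∈ G n, ∀ x, g x = pm σ x)

/-- `G` preserves the form `B ph`. (`Subgroup.closure_induction`.) -/
def S_pres : Prop := ∀ (n : ℕ), ∀ g ∈ G n, ∀ x y, B ph (g x) (g y) = B ph x y

/-- `G` preserves the future cone. For the reflection `rf ph i`: `(rf x)₀ = φ x₀ - x_i` and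
`x_i² ≤ ∑ x_j² < φ x₀²` for `x` time-like, so `x_i < √φ x₀ < φ x₀`. Property for the induction:
`∀ x, Fut (g x) ↔ Fut x`. -/
def S_fut : Prop := ∀ (n : ℕ), ∀ g ∈ G n, ∀ x, Fut (g x) ↔ Fut x

/-- Conjugates. For `g ∈ G` there is a conjugate `g'`. For `g = rf ph i` take `rf ps i` etc.
The last clause: for the generators, `rf f i (v0 f) = v0 f` (because `B f (v0 f) (nv f i) =
-f² (2 - f) + 1 = 0`), `pm σ (v0 f) = v0 f`, `ng i (v0 f) = v0 f - 2 e_i`. For products: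
`g h v0 = g (v0 + 2 p) = g v0 + 2 g p`. For inverses: `v0 = g⁻¹ (v0 + 2 p) = g⁻¹ v0 + 2 g⁻¹ p`. -/
def S_conj : Prop := ∀ (n : ℕ), ∀ g ∈ G n, ∃ g' : V n ≃ₗ[ℝ] V n,
  (∀ x y, B ps (g' x) (g' y) = B ps x y) ∧ (∀ x x', Lat x x' ↔ Lat (g x) (g' x')) ∧
  ∃ p p' : V n, Lat p p' ∧ g (v0 n ph) = v0 n ph + (2 : ℝ) • p ∧
    g' (v0 n ps) = v0 n ps + (2 : ℝ) • p'

/-- The arithmetic heart. For `x ∈ X`: `x₀ ≥ φ` with equality only for the vertices of the cube.
Proof: `x_i = 1 + 2 p_i ≠ 0` for `i ≥ 1` (otherwise `1 = -2 p_i` with `p_i = m + k φ`, so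
`2 m + 1 + 2 k φ = 0`, conjugate `2 m + 1 + 2 k ψ = 0`, difference gives `k = 0`, contradiction).
So `x_i² + x_i'² ≥ 2 |x_i x_i'| ≥ 2`. Sum: `(n - φ³ + φ x₀²) + (n - ψ³ + ψ x₀'²) ≥ 2 n`, i.e.
`φ x₀² + ψ x₀'² ≥ φ³ + ψ³ = 4` (`ψ < 0`). If `x₀ ≤ φ` then `|x₀'|² ≤ φ (φ x₀² - 4) ≤ φ⁻²`,
`x₀² ≥ 4/φ`, so `x₀ > 1.57`, `|x₀'| ≤ 0.6181`, `x₀ - x₀' = k √5` with `k` an integer and
`0.95 < k √5 ≤ √5`, so `k = 1`, and then `x₀ ≤ φ`, `x₀' ≥ -φ⁻¹ = ψ` and `x₀ - x₀' = √5 = φ - ψ`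
force `x₀ = φ`, `x₀' = ψ`. In this case all inequalities are equalities, so
`x_i² + x_i'² = 2 = 2 |x_i x_i'|`, which gives `|x_i| = 1`. -/
def S_A : Prop := ∀ (n : ℕ), ∀ x ∈ X n, ph ≤ x.1 ∧ (x.1 = ph → ∀ i, x.2 i = 1 ∨ x.2 i = -1)

/-- The vertices of the cube are in `X`. (`x' = (ψ; ε)`, `p = (0; (ε_i - 1)/2)`.) -/
def S_vX : Prop := ∀ (n : ℕ) (x : V n), x.1 = ph → (∀ i, x.2 i = 1 ∨ x.2 i = -1) → x ∈ X n

/-- `G` preserves `X` (`n ≤ 4`, so that `n - φ³ < 0`). -/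
def S_GX : Prop := ∀ (n : ℕ), n ≤ 4 → ∀ g ∈ G n, ∀ x ∈ X n, g x ∈ X n

/-- `B(x, z) ≤ -φ²` for `x ∈ X`, `z = g c ∈ Z`: `B(x, g c) = B(g⁻¹ x, c) = -φ (g⁻¹ x)₀`. -/
def S_XZ : Prop := ∀ (n : ℕ), n ≤ 4 → ∀ x ∈ X n, ∀ z ∈ Z n, B ph x z ≤ -ph ^ 2

/-- Basic facts on the centres. `B z z = -φ`, `z` is future, `z₀ ≥ 1`
(`φ z₀² = φ + ∑ z_i² ≥ φ`), `G Z = Z`, and the neighbours `(φ; ± φ e_i)` of `c` are in `Z`. -/
def S_Z : Prop := ∀ (n : ℕ), cc n ∈ Z n ∧
  (∀ z ∈ Z n, B ph z z = -ph ∧ Fut z ∧ 1 ≤ z.1 ∧ ∀ g ∈ G n, g z ∈ Z n) ∧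
  (∀ i : Fin n, ((ph, EuclideanSpace.single i ph) : V n) ∈ Z n ∧
    ((ph, EuclideanSpace.single i (-ph)) : V n) ∈ Z n)

/-- Finiteness: only finitely many centres have bounded height. The conjugate `z'` of `z` satisfies
`φ⁻¹ z₀'² + ∑ z_i'² = B ps z' z' = -ψ`, so its coordinates are bounded by 1; `φ z₀² = φ + ∑ z_i²`
bounds the coordinates of `z`. Now use the last item of `S_IsI`. -/
def S_Zfin : Prop := ∀ (n : ℕ) (M : ℝ), {z : V n | z ∈ Z n ∧ z.1 ≤ M}.Finite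

/-! ## Part II: geometry -/

/-- `z₀ (-B(p,p)) ≤ 2 p₀ (-B(p,z))` for `p`, `z` future with `B(z,z) ≤ 0`.
Proof: `-B(p,z) ≥ φ p₀ z₀ - |p⃗| |z⃗| ≥ z₀ √φ (√φ p₀ - |p⃗|)` and
`(√φ p₀ - |p⃗|)(√φ p₀ + |p⃗|) = -B(p,p)`, `√φ p₀ + |p⃗| ≤ 2 √φ p₀`. -/
def S_bd : Prop := ∀ (n : ℕ) (p z : V n), Fut p → 0 < z.1 → B ph z z ≤ 0 →
  z.1 * (-B ph p p) ≤ 2 * p.1 * (-B ph p z)

/-- Nearest centres exist. (`S_bd`, `S_Zfin`: the set of `z ∈ Z` with `-B(p,z) ≤ -B(p,c)` is finite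
and non-empty.) -/
def S_min : Prop := ∀ (n : ℕ) (p : V n), Fut p → ∃ z ∈ Z n, ∀ z' ∈ Z n, B ph p z' ≤ B ph p z

/-- If `c` is a nearest centre then `p` is in the cone over the cube (compare with the centres
`(φ; ± φ e_i)`: `-φ² p₀ ± φ p_i ≤ -φ p₀`). -/
def S_cone : Prop := ∀ (n : ℕ) (p : V n), (∀ z ∈ Z n, B ph p z ≤ B ph p (cc n)) →
  ∀ i, ph * |p.2 i| ≤ p.1

/-- `K` is contained in the future cone, below a hyperboloid. Proof. `q ∈ K` gives `q₀ ≥ φ` (`z = c`).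
Suppose `-B(q,q) < m := φ³ - n` (`m > 0` as `n ≤ 4`). The function `s ↦ -B(q+sc, q+sc) =
φ (q₀+s)² - ∑ q_i²` is continuous, tends to infinity, and is `< m` at 0, so at some `s ≥ 0` it has a value in
`(0, m)`. `p = q + s c` is in `K` (`B(c,z) = -φ z₀ < 0`) and future. Let `z = g c` be a nearest centre
for `p` (`S_min`), `p' = g⁻¹ p`. By `S_cone` `φ |p'_i| ≤ p'_0`, so
`m > -B(p,p) = φ p'₀² - ∑ p'_i² ≥ p'₀² φ⁻² (φ³ - n)`, so `p'₀ < φ` and `-B(p,z) = φ p'₀ < φ²`,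
contradiction with `p ∈ K`. -/
def S_Kfut : Prop := ∀ (n : ℕ), n ≤ 4 → ∀ q ∈ K n, Fut q ∧ ph ≤ q.1 ∧ ph ^ 3 - n ≤ -B ph q q

/-- The cube `{φ} × [-1,1]^n` is contained in `K`: it is the convex hull of its vertices, which are
in `X` (`S_vX`), and `S_XZ`. -/
def S_cubeK : Prop := ∀ (n : ℕ), n ≤ 4 → cubeV n ⊆ K n

/-- `G` preserves `K`, and the lifted tiles are images of the lifted cube. (`Cell (g c) = g '' Cell c`
and `Cell c = cubeV`: `⊆` by comparing with the neighbours, `⊇` by `S_cubeK`.) -/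
def S_cell : Prop := ∀ (n : ℕ), n ≤ 4 → ∀ g ∈ G n, (∀ p, g p ∈ K n ↔ p ∈ K n) ∧
  (∀ z, z ∈ Z n → Cell (g z) = g '' Cell z) ∧ Cell (g (cc n)) = g '' cubeV n

/-- Every vertical line meets some lifted tile. Proof: `{t | (t,y) ∈ K}` is closed, non-empty
(`t` large: `-B((t,y),z) ≥ z₀ √φ (√φ t - |y|)`, `z₀ ≥ 1`), bounded below by `φ`; let `t₀` be its
minimum, `p = (t₀,y) ∈ K`, so `m := -B(p,p) ≥ φ³ - n > 0` by `S_Kfut`. If `B(p,z) < -φ²` for all
`z ∈ Z`: for small `δ` `p_δ = (t₀-δ,y)` is future with `-B ≥ m/2`, and by `S_bd` all `z ∈ Z` with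
`-B(p_δ,z) < φ²` have `z₀ ≤ 2 t₀ φ² / (m/2) =: M`; there are finitely many `z` with `z₀ ≤ M`
(`S_Zfin`) and for them `B(p_δ,z) = B(p,z) + φ δ z₀ ≤ -φ²` for small `δ`. So `p_δ ∈ K`,
contradiction. -/
def S_sec : Prop := ∀ (n : ℕ), n ≤ 4 → ∀ y : E n, ∃ t : ℝ, ∃ z ∈ Z n, ((t, y) : V n) ∈ Cell z

/-- Uniqueness. (`t ↦ B((t,y),z)` is strictly decreasing.) -/
def S_uniq : Prop := ∀ (n : ℕ) (y : E n) (t t' : ℝ), ∀ z ∈ Z n, ∀ z' ∈ Z n,
  ((t, y) : V n) ∈ Cell z → ((t', y) : V n) ∈ Cell z' → t = t'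

/-- Local finiteness. `p ∈ Cell z`, `‖p⃗‖ ≤ R`: by `S_cell` `p = g q`, `q ∈ cubeV`, so
`-B(p,p) = -B(q,q) ≤ φ³`, which bounds `p₀`; by `S_Kfut` `-B(p,p) ≥ φ³ - n`; by `S_bd`
`z₀ (φ³ - n) ≤ 2 p₀ φ²`; now `S_Zfin`. -/
def S_lf : Prop := ∀ (n : ℕ), n ≤ 4 → ∀ R : ℝ,
  {z : V n | z ∈ Z n ∧ ∃ p ∈ Cell z, ‖p.2‖ ≤ R}.Finite

/-! ## Part III: the tiling -/

/-- General facts on faces. (1) transitivity (`IsExtreme.trans`); (2) restriction
(`IsExtreme.mono`-like); (3) a face of a convex set which contains an interior point is everything;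
(4) affine equivalences; (5) intersections. -/
def S_face : Prop := ∀ n : ℕ,
  (∀ F P H : Set (E n), IsFace F P → IsFace H F → IsFace H P) ∧
  (∀ F P Q : Set (E n), IsFace F P → F ⊆ Q → Q ⊆ P → IsFace F Q) ∧
  (∀ F P : Set (E n), Convex ℝ P → IsFace F P → (F ∩ interior P).Nonempty → F = P) ∧
  (∀ (A : E n ≃ᵃ[ℝ] E n) (F P : Set (E n)), IsFace (A '' F) (A '' P) ↔ IsFace F P) ∧
  (∀ (A : E n ≃ᵃ[ℝ] E n) (P : Set (E n)), IsPoly (A '' P) ↔ IsPoly P) ∧
  (∀ F F' P : Set (E n), IsFace F P → IsFace F' P → IsFace (F ∩ F') P)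

/-- A face of a polytope is the convex hull of the vertices it contains. (Write `x ∈ F` as a convex
combination of `S` with positive weights; each `s` which occurs is in `F` by extremality.) -/
def S_hull : Prop := ∀ (n : ℕ) (S F : Set (E n)), S.Finite → IsFace F (convexHull ℝ S) →
  F = convexHull ℝ (S ∩ F)

/-- The tiles are affine images of the standard cube. The map `y ↦ (g (φ, y))⃗` is affine and
injective, as `(g (φ,y))` lies in the hyperplane `B(·, g c) = -φ²`, and `(g c)₀ > 0`. -/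
def S_aff : Prop := ∀ (n : ℕ), n ≤ 4 → ∀ g ∈ G n, ∃ A : E n ≃ᵃ[ℝ] E n,
  (∀ y, A y = (g ((ph, y) : V n)).2) ∧ tile (g (cc n)) = A '' cube n

/-- The standard cube is a polytope (`n` arbitrary); it is the convex hull of `{1,-1}^n`. -/
def S_cubepoly : Prop := ∀ n : ℕ, IsPoly (cube n) ∧ Convex ℝ (cube n) ∧
  cube n = convexHull ℝ {y : E n | ∀ i, y i = 1 ∨ y i = -1}

/-- The intersection of two tiles is a face. Let `a, b ∈ tile z`, `x ∈ openSegment a b`,
`x ∈ tile z'`. The lifts satisfy `x̂ = combination of â, b̂` (uniqueness `S_uniq` and convexity of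
`Cell z`), `B(x̂, z') = -φ²`, `B(â,z'), B(b̂,z') ≤ -φ²`, hence equality. -/
def S_ftf : Prop := ∀ (n : ℕ), ∀ z ∈ Z n, ∀ z' ∈ Z n, IsFace (tile z ∩ tile z') (tile z)

/-- `T n` is an LFC tiling. -/
def S_lfc : Prop := ∀ (n : ℕ), n ≤ 4 → IsLFC (T n)

/-- In an LFC tiling, an element of the face lattice contained in a tile is a face of this tile. -/
def S_localface : Prop := ∀ (n : ℕ) (T' : Set (Set (E n))), IsLFC T' → ∀ P ∈ T',
  ∀ F : FaceLat T', F.1 ⊆ P → IsFace F.1 P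

/-- The group acts on the face lattice. `h y = (g (t(y), y))⃗` where `(t(y), y)` is the lift of `y`
(`S_sec`, `S_uniq`). On `tile z`, `z = k c`, `h` is the restriction of the affine equivalence
`A_{gk} ∘ A_k⁻¹` (`S_aff`, `S_cell`), so faces of `tile z` go to faces of `tile (g z)`. -/
def S_aut : Prop := ∀ (n : ℕ), n ≤ 4 → ∀ g ∈ G n, ∃ (h : E n ≃ E n)
  (f : FaceLat (T n) ≃o FaceLat (T n)), (∀ F, (f F).1 = h '' F.1) ∧
  (∀ z ∈ Z n, ∀ (t : ℝ) (y : E n), ((t, y) : V n) ∈ Cell z → h y = (g (t, y)).2) ∧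
  (∀ z ∈ Z n, h '' tile z = tile (g z))

/-- The faces of the cube are the sets given by fixing some coordinates to be `±1`, and the
empty set. -/
def S_cubeface : Prop := ∀ (n : ℕ) (F : Set (E n)), IsFace F (cube n) ↔
  F = ∅ ∨ ∃ (I : Set (Fin n)) (ε : Fin n → ℝ), (∀ i, ε i = 1 ∨ ε i = -1) ∧
    F = {y : E n | y ∈ cube n ∧ ∀ i ∈ I, y i = ε i}

/-- Maximal chains of subsets of `Fin n` are permuted transitively by the permutations. -/
def S_chainperm : Prop := ∀ (n : ℕ) (C D : Set (Set (Fin n))),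
  (∀ s ∈ C, ∀ t ∈ C, s ⊆ t ∨ t ⊆ s) → (∀ s, (∀ t ∈ C, s ⊆ t ∨ t ⊆ s) → s ∈ C) →
  (∀ s ∈ D, ∀ t ∈ D, s ⊆ t ∨ t ⊆ s) → (∀ s, (∀ t ∈ D, s ⊆ t ∨ t ⊆ s) → s ∈ D) →
  ∃ σ : Equiv.Perm (Fin n), (fun s => σ '' s) '' C = D

/-- Maximal chains of faces of the cube are permuted transitively by the signed permutations.
Proof: a maximal chain contains `∅`, and its smallest non-empty element is a vertex `ε` (finitely
many faces; otherwise a vertex of it could be added). The non-empty elements are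
`F_I = {y ∈ cube | y_i = ε_i for i ∈ I}`, where `I` runs over a maximal chain of subsets
(`S_cubeface`); now `S_chainperm`. -/
def S_cubeflag : Prop := ∀ (n : ℕ) (C D : Set (Set (E n))),
  (∀ F ∈ C, IsFace F (cube n)) → (∀ s ∈ C, ∀ t ∈ C, s ⊆ t ∨ t ⊆ s) →
  (∀ s, IsFace s (cube n) → (∀ t ∈ C, s ⊆ t ∨ t ⊆ s) → s ∈ C) →
  (∀ F ∈ D, IsFace F (cube n)) → (∀ s ∈ D, ∀ t ∈ D, s ⊆ t ∨ t ⊆ s) →
  (∀ s, IsFace s (cube n) → (∀ t ∈ D, s ⊆ t ∨ t ⊆ s) → s ∈ D) →
  ∃ (σ : Equiv.Perm (Fin n)) (ε : Fin n → ℝ), (∀ i, ε i = 1 ∨ ε i = -1) ∧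
    (fun F => (fun y : E n => (WithLp.toLp 2 (fun i => ε i * y (σ i)) : E n)) '' F) '' C = D

/-- Every flag of the face lattice of an LFC tiling contains `univ`, `∅` and a tile, and the other
elements are faces of this tile. Proof: some element of the flag is neither empty nor `univ` (else one
could add a tile), let `y` be a point of it. All the larger elements other than `univ` are faces of
tiles through `y`: finitely many tiles (local finiteness), each with finitely many faces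
(`S_hull`). So there is a largest element `M ≠ univ`; it is a face of a tile `P`, `P` is comparable
with all elements, so `P ∈ Φ`, `P = M`. -/
def S_flagtile : Prop := ∀ (n : ℕ) (T' : Set (Set (E n))), 1 ≤ n → IsLFC T' →
  ∀ Φ : Flag (FaceLat T'), ∃ P ∈ T', (∃ a ∈ Φ, a.1 = P) ∧ ∀ a ∈ Φ, a.1 = univ ∨ IsFace a.1 P

/-- Every flag of `T n` can be moved to a flag containing the central tile, then `S_cubeflag`. -/
def S_flag : Prop := ∀ (n : ℕ), 1 ≤ n → n ≤ 4 → CombRegular (T n)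

/-! ## Part IV: not isomorphic to a regular tiling -/

/-- the atoms below an element -/
def At {α : Type} [PartialOrder α] [OrderBot α] (F : α) : Set α := {a | IsAtom a ∧ a ≤ F}

/-- `a` is a vertex and `b`, `d` are its two neighbours in a quadrangular face -/
def Sq {α : Type} [PartialOrder α] [OrderBot α] (a b d : α) : Prop :=
  ∃ c F : α, a ≠ b ∧ a ≠ c ∧ a ≠ d ∧ b ≠ c ∧ b ≠ d ∧ c ≠ d ∧ At F = {a, b, c, d} ∧
    (∃ e : α, At e = {a, b}) ∧ (∃ e : α, At e = {b, c}) ∧ (∃ e : α, At e = {c, d}) ∧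
    (∃ e : α, At e = {d, a}) ∧ (¬ ∃ e : α, At e = {a, c}) ∧ (¬ ∃ e : α, At e = {b, d})

/-- five quadrangles around a face of codimension 2 -/
def Star (α : Type) [PartialOrder α] [OrderBot α] (n : ℕ) : Prop :=
  ∃ (v : α) (q : Fin (n - 2) → α) (w : ZMod 5 → α),
    (∀ i, Sq v (w i) (w (i + 1))) ∧ (∀ i j, Sq v (w i) (q j)) ∧
    (∀ j k, j ≠ k → Sq v (q j) (q k))

/-- Order isomorphisms. -/
def S_iso : Prop := ∀ (α β : Type) [PartialOrder α] [OrderBot α] [PartialOrder β] [OrderBot β]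
  (f : α ≃o β), (∀ a b d : α, Sq a b d → Sq (f a) (f b) (f d)) ∧
    (∀ a b d : α, Sq a b d → Sq a d b) ∧ (∀ n, Star α n → Star β n)

/-- Atoms in the face lattice of an LFC tiling are the one-point faces; every non-empty element
contains an atom. (`S_hull`; for `univ` use any tile.) -/
def S_atom : Prop := ∀ (n : ℕ) (T' : Set (Set (E n))), 1 ≤ n → IsLFC T' → ∀ a : FaceLat T',
  (IsAtom a ↔ ∃ x, a.1 = {x}) ∧ (a.1.Nonempty → ∃ b : FaceLat T', IsAtom b ∧ b ≤ a)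

/-- An element with finitely many atoms is not `univ` and is the convex hull of its atoms. -/
def S_hullat : Prop := ∀ (n : ℕ) (T' : Set (Set (E n))), 1 ≤ n → IsLFC T' → ∀ F : FaceLat T',
  (At F).Finite → F.1 ≠ univ ∧ F.1 = convexHull ℝ {x : E n | ∃ a ∈ At F, a.1 = {x}}

/-- The standard squares. For `i ≠ j` the 2-face `{y ∈ cube | y_k = 1 for k ≠ i, j}` of the central
tile is a quadrangle with vertices `v = 1`, `v^i`, `v^{ij}`, `v^j` (sign changes). Its atoms are its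
four vertices (`S_atom`, `S_localface`, `S_cubeface`). There is no element with atoms exactly two
opposite vertices: it would be the diagonal (`S_hullat`) and a face of the cube, but its
midpoint is the midpoint of the other diagonal. -/
def S_sq0 : Prop := ∀ (n : ℕ), 1 ≤ n → n ≤ 4 → ∀ i j : Fin n, i ≠ j →
  ∃ a b d : FaceLat (T n), a.1 = {one n} ∧
    b.1 = {(WithLp.toLp 2 (fun k => if k = i then (-1 : ℝ) else 1) : E n)} ∧
    d.1 = {(WithLp.toLp 2 (fun k => if k = j then (-1 : ℝ) else 1) : E n)} ∧ Sq a b d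

/-- `T n` has the star property. With `r_0, r_1` the reflections `rf ph 0`, `rf ph 1` acting on the
face lattice by `S_aut`, `v = 1`, `q_j = v^{j+2}`, `w 0 = v^1`, `w 1 = v^0`, `w 2 = r_1 (w 0)`,
`w 4 = r_0 (w 1)`, `w 3 = r_0 (w 2) = r_1 (w 4)` (explicit computation: both are the projection of
`(3 φ; 2 φ + 1, 2 φ + 1, 1, …)`); `r_0` fixes `v, q_j, w 0`, `r_1` fixes `v, q_j, w 1`. -/
def S_star : Prop := ∀ (n : ℕ), 3 ≤ n → n ≤ 4 → Star (FaceLat (T n)) n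

/-- Geometry lemma: four points, rotated cyclically by an isometry, and coplanar: they form a
square. With `p = b - a`, `q = d - a`, `r = c - a`, `l = |p|²`, `k = ⟪p,q⟫`: `⟪p,r⟫ = ⟪q,r⟫ =
l - k`, `|r|² = 2 (l - k)`, Gram determinant `4 k (l - k)²` up to scaling. -/
def S_rhomb : Prop := ∀ (n : ℕ) (a b c d : E n) (g : E n ≃ᵢ E n), a ≠ b → b ≠ d →
  g a = b → g b = c → g c = d → g d = a → ¬ LinearIndependent ℝ ![b - a, c - a, d - a] →
  inner ℝ (b - a) (d - a) = 0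

/-- If `F` has exactly four atoms, at the points `a, b, c, d`, and there is no element with atoms
exactly `a, c`, then the four points are coplanar: otherwise there is a linear functional `l` with
`l (b - a) < 0`, `l (d - a) < 0`, `l (c - a) = 0`, the segment `[a, c]` is a face of `F`. -/
def S_coplanar : Prop := ∀ (n : ℕ) (T' : Set (Set (E n))), 1 ≤ n → IsLFC T' →
  ∀ (F A B' C D : FaceLat T') (a b c d : E n), A.1 = {a} → B'.1 = {b} → C.1 = {c} → D.1 = {d} →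
  At F = {A, B', C, D} → (¬ ∃ e : FaceLat T', At e = {A, C}) →
  ¬ LinearIndependent ℝ ![b - a, c - a, d - a]

/-- In a regular tiling the quadrangles are rotated by isometries. Extend the chains
`{a}, [a,b], F` and `{b}, [b,c], F` to flags `Φ`, `Ψ`, and let `g` map `Φ` to `Ψ`. It induces an order
automorphism of the face lattice (isometries are affine, `IsFace` is preserved) which maps
`{a} ↦ {b}` (both are atoms in the chain `Ψ`), `[a,b] ↦ [b,c]` (two atoms each), `F ↦ F` (four atoms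
each), hence `c, d` to `d, a`: `{d, b}` is not the atom set of an element. -/
def S_rot : Prop := ∀ (n : ℕ) (T' : Set (Set (E n))), 1 ≤ n → IsLFC T' → Regular T' →
  ∀ (F A B' C D : FaceLat T') (a b c d : E n), A.1 = {a} → B'.1 = {b} → C.1 = {c} → D.1 = {d} →
  A ≠ B' → A ≠ C → A ≠ D → B' ≠ C → B' ≠ D → C ≠ D → At F = {A, B', C, D} →
  (∃ e : FaceLat T', At e = {A, B'}) → (∃ e : FaceLat T', At e = {B', C}) →
  (∃ e : FaceLat T', At e = {C, D}) → (∃ e : FaceLat T', At e = {D, A}) →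
  (¬ ∃ e : FaceLat T', At e = {A, C}) → (¬ ∃ e : FaceLat T', At e = {B', D}) →
  ∃ g : E n ≃ᵢ E n, g a = b ∧ g b = c ∧ g c = d ∧ g d = a

/-- Quadrangles of regular tilings are squares. -/
def S_sqT : Prop := ∀ (n : ℕ) (T' : Set (Set (E n))), 1 ≤ n → IsLFC T' → Regular T' →
  ∀ A B' D : FaceLat T', Sq A B' D → ∃ a b d : E n, A.1 = {a} ∧ B'.1 = {b} ∧ D.1 = {d} ∧
    a ≠ b ∧ a ≠ d ∧ inner ℝ (b - a) (d - a) = 0

/-- Linear algebra: `q_j` (`n - 2` of them), `w 0`, `w 1` are pairwise orthogonal, so they span; `w 2` is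
orthogonal to `w 1` and the `q_j`, hence a multiple of `w 0`; similarly `w 3 ∥ w 1`, `w 4 ∥ w 0`, but
`w 4 ⊥ w 0`. -/
def S_lin : Prop := ∀ (n : ℕ), 2 ≤ n → ∀ (q : Fin (n - 2) → E n) (w : ZMod 5 → E n),
  (∀ i, w i ≠ 0) → (∀ j, q j ≠ 0) → (∀ i, inner ℝ (w i) (w (i + 1)) = (0 : ℝ)) →
  (∀ i j, inner ℝ (w i) (q j) = (0 : ℝ)) → (∀ j k, j ≠ k → inner ℝ (q j) (q k) = (0 : ℝ)) → False

/-- A regular tiling does not have the star property. -/
def S_noreg : Prop := ∀ (n : ℕ), 2 ≤ n → ∀ T' : Set (Set (E n)), IsLFC T' → Regular T' →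
  ¬ Star (FaceLat T') n

/-- The main theorem. -/
def S_main : Prop := ∀ n : ℕ, 3 ≤ n → n ≤ 4 → ∃ T' : Set (Set (E n)), IsLFC T' ∧ CombRegular T' ∧
  ∀ T'' : Set (Set (E n)), IsLFC T'' → Regular T'' → IsEmpty (FaceLat T' ≃o FaceLat T'')

end

end Pool.Agent.Q157.HT
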